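import Pool.Agent.Lib.MP_e326dc_an.Final
import Pool.Agent.Lib.MP_e326dc_an.G.Assembly
import Pool.Agent.Lib.MP_e326dc_an.D.IZ
import Pool.Agent.Lib.MP_e326dc_an.N.Factor

set_option autoImplicit false

/-!
# Multicorrelations along real polynomials (MP_e326dc_an, Q1: yes)

Every multicorrelation of a measure preserving `ℤ^ℓ`-action along integer parts of vectors of real
polynomials is the sum of a uniform limit of Riemann integrable nilsequences and of a sequence whose
uniform Cesàro seminorm is zero.  The nilsequences are given by minimal translations, and the
discontinuity sets are null for all the invariant probability measures.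

Outline of the proof.

* `Walsh`: cube averages of polynomial multicorrelations converge uniformly over boxes.
* `C`: anti-uniformity: a multicorrelation is asymptotically orthogonal to cube null sequences.
* `D`: a sequence of the tame algebra orthogonal to the cube null sequences of some order is of
  finite order up to a null sequence (Theorems B, D, Z).
* `Cube`, `E`, `E6`, `E3`: dynamical cubes, structure groups, translations; minimal systems of finite
  order are inverse limits of Lie towers, with exact descent of polynomial phases.
* `L`, `N`: the translation group of a Lie tower is a nilpotent Lie group and the tower is a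
  nilmanifold.
* `G`: integer parts through a suspension, Riemann integrability, final assembly.
-/

namespace Pool.Agent.Results.MP_e326dc_an.RealPolyMulticorr

open MeasureTheory _root_.MP_e326dc_an
open scoped ENNReal

/-- For every measure preserving `ℤ^ℓ`-action, every vectors `q i` of real polynomials and all
essentially bounded `f₀, f i` there is a uniform limit `φ` of Riemann integrable nilsequences with
`‖α - φ‖_U = 0`, where `α` is the multicorrelation. -/
theorem result {ℓ m : ℕ} {X : Type*} [MeasurableSpace X] {μ : Measure X} [IsProbabilityMeasure μ]
    (T : MPAction (Fin ℓ → ℤ) X μ) (q : Fin m → Fin ℓ → Polynomial ℝ) (f₀ : X → ℂ)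
    (f : Fin m → X → ℂ) (hf₀ : MemLp f₀ ∞ μ) (hf : ∀ i, MemLp (f i) ∞ μ) :
    ∃ φ : ℕ → ℂ, IsRNil φ ∧ uNorm (fun n => multicorr T q f₀ f n - φ n) = 0 :=
  final_of iz ij nil_factor T q f₀ f hf₀ hf

end Pool.Agent.Results.MP_e326dc_an.RealPolyMulticorr
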